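import Mathlib

/-!
# Sigma-discrete bases of convex sets in normed spaces

Main construction: for every subset `A` of a real normed space `X` and every `ε > 0`, the open
`ε`-neighbourhood of the linear span of `A` is covered by a countable union of uniformly separated
families of convex sets of diameter at most `2 * ε`.  Induction on the cardinality of `A`.
-/

set_option autoImplicit false

namespace Pool.Agent.ConvexBase

open Set Metric

universe u

variable {X : Type u} [NormedAddCommGroup X] [NormedSpace ℝ X]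

/-- `A` is covered by countably many families of convex sets of diameter `≤ 2 * ε`,
the `n`-th family being `1/(n+1)`-separated. -/
def Good (ε : ℝ) (A : Set X) : Prop :=
  ∃ D : ℕ → Set (Set X),
    (∀ n, ∀ s ∈ D n, Convex ℝ s) ∧
    (∀ n, ∀ s ∈ D n, ∀ x ∈ s, ∀ y ∈ s, dist x y ≤ 2 * ε) ∧
    (∀ n, ∀ s ∈ D n, ∀ t ∈ D n, s ≠ t → ∀ x ∈ s, ∀ y ∈ t, 1 / ((n : ℝ) + 1) ≤ dist x y) ∧
    (∀ x ∈ A, ∃ n, ∃ s ∈ D n, x ∈ s)

/-- Reindexing: any countable index set and any positive separation constants will do. -/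
theorem good_of_countable {ι : Type*} [Countable ι] {ε : ℝ} {A : Set X}
    (D : ι → Set (Set X)) (δ : ι → ℝ) (hδ : ∀ i, 0 < δ i)
    (hconv : ∀ i, ∀ s ∈ D i, Convex ℝ s)
    (hdiam : ∀ i, ∀ s ∈ D i, ∀ x ∈ s, ∀ y ∈ s, dist x y ≤ 2 * ε)
    (hsep : ∀ i, ∀ s ∈ D i, ∀ t ∈ D i, s ≠ t → ∀ x ∈ s, ∀ y ∈ t, δ i ≤ dist x y)
    (hcov : ∀ x ∈ A, ∃ i, ∃ s ∈ D i, x ∈ s) : Good ε A := by
  classical
  obtain ⟨e, he⟩ := exists_injective_nat ι
  refine ⟨fun N => {s | ∃ i, s ∈ D i ∧ e i = (Nat.unpair N).1 ∧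
      1 / (((Nat.unpair N).2 : ℝ) + 1) ≤ δ i}, ?_, ?_, ?_, ?_⟩
  · rintro N s ⟨i, hs, -, -⟩
    exact hconv i s hs
  · rintro N s ⟨i, hs, -, -⟩
    exact hdiam i s hs
  · rintro N s ⟨i, hs, hi, hd⟩ t ⟨j, ht, hj, -⟩ hst x hx y hy
    have hij : i = j := he (hi.trans hj.symm)
    subst hij
    refine le_trans (le_trans ?_ hd) (hsep i s hs t ht hst x hx y hy)
    apply one_div_le_one_div_of_le
    · positivity
    · have : (Nat.unpair N).2 ≤ N := Nat.unpair_right_le N
      have h2 : (((Nat.unpair N).2 : ℕ) : ℝ) ≤ (N : ℝ) := by exact_mod_cast this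
      linarith
  · intro x hx
    obtain ⟨i, s, hs, hxs⟩ := hcov x hx
    obtain ⟨k, hk⟩ := exists_nat_one_div_lt (hδ i)
    refine ⟨Nat.pair (e i) k, s, ⟨i, hs, ?_, ?_⟩, hxs⟩
    · simp
    · simp only [Nat.unpair_pair]
      exact hk.le

/-- The separable (countable) case. -/
theorem good_of_separable {ε : ℝ} {Y : Set X} (hY : TopologicalSpace.IsSeparable Y) :
    Good ε (thickening ε Y) := by
  classical
  obtain ⟨c, hc, hYc⟩ := hY
  have : Countable c := hc.to_subtype
  refine good_of_countable (ι := c × ℕ)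
    (fun p => {closedBall (p.1 : X) (ε - 1 / ((p.2 : ℝ) + 1))}) (fun _ => 1) (fun _ => one_pos)
    ?_ ?_ ?_ ?_
  · rintro p s hs
    rw [mem_singleton_iff] at hs
    subst hs
    exact convex_closedBall _ _
  · rintro p s hs x hx y hy
    rw [mem_singleton_iff] at hs
    subst hs
    rw [mem_closedBall] at hx hy
    have h0 : (0 : ℝ) < 1 / ((p.2 : ℝ) + 1) := by positivity
    have := dist_triangle_right x y (p.1 : X)
    linarith
  · rintro p s hs t ht hst
    rw [mem_singleton_iff] at hs ht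
    exact absurd (hs.trans ht.symm) hst
  · intro x hx
    rw [mem_thickening_iff] at hx
    obtain ⟨y, hy, hxy⟩ := hx
    have hyc := hYc hy
    rw [Metric.mem_closure_iff] at hyc
    obtain ⟨b, hb, hyb⟩ := hyc (ε - dist x y) (by linarith)
    have hxb : dist x b < ε := by
      have := dist_triangle x y b
      linarith
    obtain ⟨k, hk⟩ := exists_nat_one_div_lt (show (0 : ℝ) < ε - dist x b by linarith)
    refine ⟨(⟨b, hb⟩, k), _, rfl, ?_⟩
    rw [mem_closedBall]
    show dist x b ≤ ε - 1 / ((k : ℝ) + 1)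
    linarith

/-- Hahn-Banach: a point outside the `ε`-neighbourhood of a subspace is seen by a norm-one
functional vanishing on the subspace. -/
theorem exists_functional {ε : ℝ} (hε : 0 < ε) (Y : Submodule ℝ X) {x : X}
    (hx : x ∉ thickening ε (Y : Set X)) :
    ∃ f : X →L[ℝ] ℝ, ‖f‖ ≤ 1 ∧ (∀ y ∈ Y, f y = 0) ∧ ε ≤ f x := by
  obtain ⟨f, hf⟩ := geometric_hahn_banach_open_point (Y.convex.thickening ε) isOpen_thickening hx
  have hsub : ∀ y ∈ Y, y ∈ thickening ε (Y : Set X) := fun y hy => self_subset_thickening hε _ hy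
  have hzero : ∀ y ∈ Y, f y = 0 := by
    intro y hy
    by_contra hne
    have h1 := hf ((f x / f y) • y) (hsub _ (Y.smul_mem _ hy))
    rw [map_smul, smul_eq_mul, div_mul_cancel₀ _ hne] at h1
    exact lt_irrefl _ h1
  have hfx : 0 < f x := by
    have := hf 0 (hsub 0 Y.zero_mem)
    simpa using this
  have hfne : f ≠ 0 := by
    rintro rfl
    simp at hfx
  have hnpos : 0 < ‖f‖ := norm_pos_iff.mpr hfne
  have hbound : ‖f‖ * ε ≤ f x := by
    have h2 : ‖f‖ ≤ f x / ε := by
      refine ContinuousLinearMap.opNorm_le_bound _ (div_nonneg hfx.le hε.le) fun z => ?_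
      by_contra hcon
      push Not at hcon
      have hfz : f z ≠ 0 := by
        intro h0
        rw [h0, norm_zero] at hcon
        exact absurd hcon (not_lt.mpr (mul_nonneg (div_nonneg hfx.le hε.le) (norm_nonneg z)))
      have hfzpos : 0 < ‖f z‖ := norm_pos_iff.mpr hfz
      have hw : (f x / f z) • z ∈ thickening ε (Y : Set X) := by
        rw [mem_thickening_iff]
        refine ⟨0, Y.zero_mem, ?_⟩
        rw [dist_zero_right, norm_smul, norm_div, Real.norm_of_nonneg hfx.le, div_mul_eq_mul_div,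
          div_lt_iff₀ hfzpos]
        have : f x * ‖z‖ = ε * (f x / ε * ‖z‖) := by
          field_simp
        rw [this]
        exact mul_lt_mul_of_pos_left hcon hε
      have h1 := hf _ hw
      rw [map_smul, smul_eq_mul, div_mul_cancel₀ _ hfz] at h1
      exact lt_irrefl _ h1
    rw [le_div_iff₀ hε] at h2
    exact h2
  refine ⟨(‖f‖)⁻¹ • f, ?_, ?_, ?_⟩
  · rw [norm_smul, norm_inv, norm_norm, inv_mul_cancel₀ hnpos.ne']
  · intro y hy
    simp [hzero y hy]
  · have : ε ≤ (‖f‖)⁻¹ * f x := by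
      rw [← div_eq_inv_mul, le_div_iff₀ hnpos]
      linarith
    simpa using this

end Pool.Agent.ConvexBase
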