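import Pool.Agent.ConvexBase.Basic

set_option autoImplicit false

namespace Pool.Agent.ConvexBase

open Set Metric
open scoped Cardinal

universe u

variable {X : Type u} [NormedAddCommGroup X] [NormedSpace ℝ X]

/-- Increasing unions of spans indexed by a linear order. -/
theorem mem_span_image_of_directed {T : Type u} [LinearOrder T] (g : T → X) (I : Set T)
    (hI : I.Nonempty) {y : X} (hy : y ∈ Submodule.span ℝ (g '' I)) :
    ∃ i ∈ I, y ∈ Submodule.span ℝ (g '' Iic i) := by
  classical
  have : Nonempty I := hI.to_subtype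
  have h1 : Submodule.span ℝ (g '' I) ≤ ⨆ i : I, Submodule.span ℝ (g '' Iic (i : T)) := by
    rw [← Submodule.span_iUnion]
    apply Submodule.span_mono
    rintro _ ⟨i, hi, rfl⟩
    exact mem_iUnion.mpr ⟨⟨i, hi⟩, i, le_refl i, rfl⟩
  have h2 := h1 hy
  rw [Submodule.mem_iSup_of_directed] at h2
  · obtain ⟨i, hi⟩ := h2
    exact ⟨i, i.2, hi⟩
  · intro i j
    rcases le_total (i : T) (j : T) with hij | hij
    · exact ⟨j, Submodule.span_mono (image_mono (Iic_subset_Iic.mpr hij)), le_refl _⟩
    · exact ⟨i, le_refl _, Submodule.span_mono (image_mono (Iic_subset_Iic.mpr hij))⟩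

/-- The inductive step: if all proper initial segments have good neighbourhoods then so does the
whole span. -/
theorem good_step {T : Type u} [LinearOrder T] [WellFoundedLT T] (g : T → X) {ε : ℝ} (hε : 0 < ε)
    (ih : ∀ i : T, Good ε (thickening ε (Submodule.span ℝ (g '' Iic i) : Set X))) :
    Good ε (thickening ε (Submodule.span ℝ (range g) : Set X)) := by
  classical
  choose D hconv hdiam hsep hcov using ih
  -- the functionals attached to stage `i`
  let P : T → (X →L[ℝ] ℝ) → Prop := fun i f =>
    ‖f‖ ≤ 1 ∧ ∀ y ∈ Submodule.span ℝ (g '' Iio i), f y = 0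
  let gap : ℕ → ℝ := fun k => 1 / ((k : ℝ) + 1)
  have hgap : ∀ k, 0 < gap k := fun k => by positivity
  let cell : T → Set X → (X →L[ℝ] ℝ) → ℕ → ℕ → Set X := fun i s f k m =>
    s ∩ thickening (ε - gap k) (Submodule.span ℝ (g '' Iic i) : Set X) ∩
      {x | ε - gap k / 2 + gap m ≤ f x} ∩
      {x | ∀ f' : X →L[ℝ] ℝ, WellOrderingRel f' f → P i f' → f' x ≤ ε - gap k / 2}
  -- index type: none for the ball around `0`, some (n, k, m) for the others
  refine good_of_countable (ι := ℕ ⊕ (ℕ × ℕ × ℕ))
    (fun p => match p with
      | Sum.inl k => {closedBall (0 : X) (ε - gap k)}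
      | Sum.inr (n, k, m) => {s | ∃ i, ∃ d ∈ D i n, ∃ f, P i f ∧ s = cell i d f k m})
    (fun p => match p with
      | Sum.inl _ => 1
      | Sum.inr (n, k, m) => min (1 / ((n : ℝ) + 1)) (min (gap k / 2) (gap m)))
    ?_ ?_ ?_ ?_ ?_
  · rintro (k | ⟨n, k, m⟩)
    · exact one_pos
    · exact lt_min (by positivity) (lt_min (by have := hgap k; positivity) (hgap m))
  · rintro (k | ⟨n, k, m⟩) s hs
    · simp only [mem_singleton_iff] at hs
      subst hs
      exact convex_closedBall _ _
    · obtain ⟨i, d, hd, f, hf, rfl⟩ := hs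
      refine ((((hconv i n d hd).inter ((Submodule.convex _).thickening _)).inter ?_).inter ?_)
      · exact convex_halfSpace_ge (f.isLinear) _
      · have : {x : X | ∀ f' : X →L[ℝ] ℝ, WellOrderingRel f' f → P i f' → f' x ≤ ε - gap k / 2} =
            ⋂ (f' : X →L[ℝ] ℝ) (_ : WellOrderingRel f' f) (_ : P i f'),
              {x | f' x ≤ ε - gap k / 2} := by
          ext x
          simp
        rw [this]
        refine convex_iInter fun f' => convex_iInter fun _ => convex_iInter fun _ => ?_
        exact convex_halfSpace_le (f'.isLinear) _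
  · rintro (k | ⟨n, k, m⟩) s hs x hx y hy
    · simp only [mem_singleton_iff] at hs
      subst hs
      rw [mem_closedBall] at hx hy
      have := dist_triangle_right x y (0 : X)
      have := hgap k
      linarith
    · obtain ⟨i, d, hd, f, hf, rfl⟩ := hs
      exact hdiam i n d hd x hx.1.1.1 y hy.1.1.1
  · rintro (k | ⟨n, k, m⟩) s hs t ht hst x hx y hy
    · simp only [mem_singleton_iff] at hs ht
      exact absurd (hs.trans ht.symm) hst
    · obtain ⟨i, d, hd, f, hf, rfl⟩ := hs
      obtain ⟨j, e, he, f₂, hf₂, rfl⟩ := ht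
      -- different stages
      have key : ∀ (i j : T) (d e : Set X) (f f₂ : X →L[ℝ] ℝ), i < j → P j f₂ →
          ∀ x ∈ cell i d f k m, ∀ y ∈ cell j e f₂ k m, gap k / 2 ≤ dist x y := by
        intro i j d e f f₂ hij hf₂ x hx y hy
        obtain ⟨z, hz, hxz⟩ := mem_thickening_iff.mp hx.1.1.2
        have hz0 : f₂ z = 0 := by
          apply hf₂.2
          refine Submodule.span_mono (image_mono ?_) hz
          intro l hl
          exact lt_of_le_of_lt hl hij
        have h1 : ε - gap k / 2 + gap m ≤ f₂ y := hy.1.2
        have h2 : f₂ y ≤ dist y z := by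
          have : f₂ y = f₂ (y - z) := by rw [map_sub, hz0, sub_zero]
          rw [this, dist_eq_norm]
          refine (le_abs_self _).trans ?_
          have h3 := f₂.le_opNorm (y - z)
          rw [Real.norm_eq_abs] at h3
          refine h3.trans ?_
          have := hf₂.1
          nlinarith [norm_nonneg (y - z)]
        have h4 := dist_triangle_left y z x
        have := hgap m
        have h5 : dist y z ≤ dist x y + dist x z := by
          simpa [dist_comm] using h4
        linarith
      have key2 : ∀ (i : T) (d : Set X) (f f₂ : X →L[ℝ] ℝ), WellOrderingRel f f₂ → P i f →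
          ∀ x ∈ cell i d f k m, ∀ y ∈ cell i d f₂ k m, gap m ≤ dist x y := by
        intro i d f f₂ hff hf x hx y hy
        have h1 : ε - gap k / 2 + gap m ≤ f x := hx.1.2
        have h2 : f y ≤ ε - gap k / 2 := hy.2 f hff hf
        have h3 : f x - f y ≤ dist x y := by
          rw [← map_sub, dist_eq_norm]
          refine (le_abs_self _).trans ?_
          have h3 := f.le_opNorm (x - y)
          rw [Real.norm_eq_abs] at h3
          refine h3.trans ?_
          have := hf.1
          nlinarith [norm_nonneg (x - y)]
        linarith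
      rcases lt_trichotomy i j with hij | hij | hij
      · exact (min_le_right _ _).trans ((min_le_left _ _).trans (key i j d e f f₂ hij hf₂ x hx y hy))
      · subst hij
        by_cases hde : d = e
        · subst hde
          have hff : f ≠ f₂ := by
            rintro rfl
            exact hst rfl
          rcases trichotomous_of WellOrderingRel f f₂ with h | h | h
          · exact (min_le_right _ _).trans
              ((min_le_right _ _).trans (key2 i d f f₂ h hf x hx y hy))
          · exact absurd h hff
          · rw [dist_comm]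
            exact (min_le_right _ _).trans
              ((min_le_right _ _).trans (key2 i d f₂ f h hf₂ y hy x hx))
        · exact (min_le_left _ _).trans
            (hsep i n d hd e he hde x hx.1.1.1 y hy.1.1.1)
      · rw [dist_comm]
        exact (min_le_right _ _).trans ((min_le_left _ _).trans (key j i e d f₂ f hij hf y hy x hx))
  · intro x hx
    by_cases hball : dist x 0 < ε
    · obtain ⟨k, hk⟩ := exists_nat_one_div_lt (show (0 : ℝ) < ε - dist x 0 by linarith)
      refine ⟨Sum.inl k, _, rfl, ?_⟩
      rw [mem_closedBall]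
      show dist x 0 ≤ ε - 1 / ((k : ℝ) + 1)
      linarith
    · -- find the least stage
      obtain ⟨y, hy, hxy⟩ := mem_thickening_iff.mp hx
      have hne : (univ : Set T).Nonempty := by
        rw [nonempty_iff_ne_empty]
        intro h0
        rw [← image_univ, h0, image_empty] at hy
        simp only [Submodule.span_empty, SetLike.mem_coe, Submodule.mem_bot] at hy
        subst hy
        exact hball hxy
      have hex : ∃ i : T, x ∈ thickening ε (Submodule.span ℝ (g '' Iic i) : Set X) := by
        rw [← image_univ] at hy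
        obtain ⟨i, -, hi⟩ := mem_span_image_of_directed g univ hne hy
        exact ⟨i, mem_thickening_iff.mpr ⟨y, hi, hxy⟩⟩
      obtain ⟨i, hi, hmin⟩ := WellFounded.has_min (wellFounded_lt (α := T))
        {i : T | x ∈ thickening ε (Submodule.span ℝ (g '' Iic i) : Set X)} hex
      have hnot : x ∉ thickening ε (Submodule.span ℝ (g '' Iio i) : Set X) := by
        intro hx'
        obtain ⟨z, hz, hxz⟩ := mem_thickening_iff.mp hx'
        rcases (Iio i).eq_empty_or_nonempty with h0 | hI
        · rw [h0, image_empty] at hz
          simp only [Submodule.span_empty, SetLike.mem_coe, Submodule.mem_bot] at hz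
          subst hz
          exact hball hxz
        · obtain ⟨j, hj, hzj⟩ := mem_span_image_of_directed g (Iio i) hI hz
          exact hmin j (mem_thickening_iff.mpr ⟨z, hzj, hxz⟩) hj
      obtain ⟨f₀, hf₀n, hf₀0, hf₀x⟩ := exists_functional hε _ hnot
      -- choose k
      obtain ⟨z, hz, hxz⟩ := mem_thickening_iff.mp hi
      obtain ⟨k, hk⟩ := exists_nat_one_div_lt (show (0 : ℝ) < ε - dist x z by linarith)
      -- choose the first functional
      obtain ⟨f, hf, hfmin⟩ := WellFounded.has_min
        (IsWellFounded.wf (r := (WellOrderingRel : (X →L[ℝ] ℝ) → (X →L[ℝ] ℝ) → Prop)))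
        {f | P i f ∧ ε - gap k / 2 < f x} ⟨f₀, ⟨hf₀n, hf₀0⟩, by
          have := hgap k
          show ε - gap k / 2 < f₀ x
          linarith⟩
      obtain ⟨hPf, hfx⟩ := hf
      obtain ⟨m, hm⟩ := exists_nat_one_div_lt (show (0 : ℝ) < f x - (ε - gap k / 2) by linarith)
      obtain ⟨n, d, hd, hxd⟩ := hcov i x hi
      refine ⟨Sum.inr (n, k, m), cell i d f k m, ⟨i, d, hd, f, hPf, rfl⟩, ⟨⟨⟨hxd, ?_⟩, ?_⟩, ?_⟩⟩
      · refine mem_thickening_iff.mpr ⟨z, hz, ?_⟩
        show dist x z < ε - 1 / ((k : ℝ) + 1)
        linarith
      · show ε - gap k / 2 + 1 / ((m : ℝ) + 1) ≤ f x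
        linarith
      · intro f' hf' hPf'
        by_contra hcon
        push Not at hcon
        exact hfmin f' ⟨hPf', hcon⟩ hf'

/-- Every `ε`-neighbourhood of a linear span is good, by induction on the number of generators. -/
theorem good_span {ε : ℝ} (hε : 0 < ε) (c : Cardinal.{u}) :
    ∀ A : Set X, #A ≤ c → Good ε (thickening ε (Submodule.span ℝ A : Set X)) := by
  classical
  induction c using WellFounded.induction (r := (· < ·)) Cardinal.lt_wf with
  | _ c ih =>
    intro A hA
    by_cases hcount : #A ≤ ℵ₀
    · have hc : A.Countable := Cardinal.le_aleph0_iff_set_countable.mp hcount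
      exact good_of_separable (TopologicalSpace.IsSeparable.span hc.isSeparable)
    · push Not at hcount
      obtain ⟨e⟩ := Cardinal.eq.mp (Cardinal.mk_ord_toType (#A))
      let g : (#A).ord.ToType → X := fun i => (e i : X)
      have hrange : range g = A := by
        ext x
        constructor
        · rintro ⟨i, rfl⟩
          exact (e i).2
        · intro hx
          exact ⟨e.symm ⟨x, hx⟩, by simp [g]⟩
      have := good_step g hε (fun i => ?_)
      · rwa [hrange] at this
      · have hlt : #(Iic i) < #A := by
          have h1 : #(Iio i) < #A := Cardinal.mk_Iio_toType_ord_lt i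
          have h2 : (Iic i : Set (#A).ord.ToType) = insert i (Iio i) := by
            ext j
            simp [le_iff_lt_or_eq, or_comm]
          rw [h2]
          refine lt_of_le_of_lt (Cardinal.mk_insert_le) ?_
          exact Cardinal.add_lt_of_lt hcount.le h1 (lt_trans Cardinal.one_lt_aleph0 hcount)
        refine ih (#(g '' Iic i)) ?_ _ le_rfl
        exact lt_of_le_of_lt Cardinal.mk_image_le (lt_of_lt_of_le hlt hA)

/-- Every normed space is a countable union of uniformly separated families of convex sets of
small diameter. -/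
theorem good_univ {ε : ℝ} (hε : 0 < ε) : Good ε (univ : Set X) := by
  have h := good_span (X := X) hε (#(univ : Set X)) univ le_rfl
  have h2 : thickening ε (Submodule.span ℝ (univ : Set X) : Set X) = univ := by
    rw [Submodule.span_univ]
    refine eq_univ_of_forall fun x => ?_
    exact self_subset_thickening hε _ (by simp)
  rwa [h2] at h

/-- Every real normed space has a sigma-discrete base of convex open sets. -/
theorem exists_base (X : Type u) [NormedAddCommGroup X] [NormedSpace ℝ X] :
    ∃ B : Set (Set X), TopologicalSpace.IsTopologicalBasis B ∧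
      (∀ s ∈ B, Convex ℝ s) ∧
      ∃ F : ℕ → Set (Set X), B = ⋃ n, F n ∧
        ∀ n : ℕ, ∀ x : X, ∃ U ∈ nhds x,
          Set.Subsingleton {s : Set X | s ∈ F n ∧ (s ∩ U).Nonempty} := by
  classical
  have hg : ∀ j : ℕ, Good (1 / ((j : ℝ) + 1)) (univ : Set X) := fun j => good_univ (by positivity)
  choose D hconv hdiam hsep hcov using hg
  let r : ℕ → ℕ → ℝ := fun j n => min (1 / ((j : ℝ) + 1)) (1 / ((n : ℝ) + 1) / 4)
  have hr : ∀ j n, 0 < r j n := fun j n => lt_min (by positivity) (by positivity)
  let F : ℕ → Set (Set X) := fun N =>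
    {U | ∃ s ∈ D (Nat.unpair N).1 (Nat.unpair N).2,
      U = thickening (r (Nat.unpair N).1 (Nat.unpair N).2) s}
  refine ⟨⋃ N, F N, ?_, ?_, F, rfl, ?_⟩
  · refine TopologicalSpace.isTopologicalBasis_of_isOpen_of_nhds ?_ ?_
    · intro U hU
      obtain ⟨N, s, hs, rfl⟩ := mem_iUnion.mp hU
      exact isOpen_thickening
    · intro x O hxO hO
      obtain ⟨ρ, hρ, hball⟩ := Metric.isOpen_iff.mp hO x hxO
      obtain ⟨j, hj⟩ := exists_nat_one_div_lt (show (0 : ℝ) < ρ / 4 by positivity)
      obtain ⟨n, s, hs, hxs⟩ := hcov j x (mem_univ x)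
      refine ⟨thickening (r j n) s, mem_iUnion.mpr ⟨Nat.pair j n, s, ?_, ?_⟩, ?_, ?_⟩
      · simpa using hs
      · simp
      · exact self_subset_thickening (hr j n) _ hxs
      · refine Subset.trans ?_ hball
        intro y hy
        obtain ⟨z, hz, hyz⟩ := mem_thickening_iff.mp hy
        have h1 := hdiam j n s hs z hz x hxs
        have h2 : r j n ≤ 1 / ((j : ℝ) + 1) := min_le_left _ _
        have h3 := dist_triangle y z x
        rw [mem_ball]
        linarith
  · intro U hU
    obtain ⟨N, s, hs, rfl⟩ := mem_iUnion.mp hU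
    exact (hconv _ _ s hs).thickening _
  · intro N x
    refine ⟨ball x (1 / (((Nat.unpair N).2 : ℝ) + 1) / 4), ball_mem_nhds x (by positivity), ?_⟩
    rintro U ⟨⟨s, hs, rfl⟩, u, hu, hux⟩ V ⟨⟨t, ht, rfl⟩, v, hv, hvx⟩
    by_contra hne
    have hst : s ≠ t := by
      rintro rfl
      exact hne rfl
    obtain ⟨p, hp, hup⟩ := mem_thickening_iff.mp hu
    obtain ⟨q, hq, hvq⟩ := mem_thickening_iff.mp hv
    have h1 := hsep _ _ s hs t ht hst p hp q hq
    have h2 : r (Nat.unpair N).1 (Nat.unpair N).2 ≤ 1 / (((Nat.unpair N).2 : ℝ) + 1) / 4 :=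
      min_le_right _ _
    rw [mem_ball] at hux hvx
    have h3 : dist p q ≤ dist u p + dist u x + dist v x + dist v q := by
      have a1 := dist_triangle p u q
      have a2 := dist_triangle u x q
      have a3 := dist_triangle x v q
      rw [dist_comm p u] at a1
      rw [dist_comm x v] at a3
      linarith
    linarith

end Pool.Agent.ConvexBase
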